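import Pool.Agent.N783.PQ.Lat
import Pool.Agent.N434.PJ.GAPSQ

/-!
# PQ/GAPSQ: common isotropic subspaces

Written by helper530, adapted from `Pool.Agent.N434.PJ.GAPSQ` of helper434 (whose lemmas on chains
of subspaces are used).
-/

set_option autoImplicit false
set_option linter.all false

open Polynomial Matrix
open scoped Classical

namespace Pool.Agent.N530.PQ

open Module
open Pool.Agent.N783.PQ hiding S_ORB
open Pool.Agent.N352.PJ (Mt Jm)
open Pool.Agent.N434.PJ (seqU seqU_mem seqU_dim')

/-! ### GAP -/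

theorem J_mul {g : ℕ} {K : Type} [Field K] (B : Mt g K) (a c : Fin (2 * g + 1)) :
    (Jm g K * B) a c = B (Fin.rev a) c := by
  rw [Matrix.mul_apply]
  simp [Jm]

theorem J_sq {g : ℕ} {K : Type} [Field K] : Jm g K * Jm g K = 1 := by
  refine Matrix.ext fun i j => ?_
  rw [J_mul, Matrix.one_apply]
  simp [Jm, eq_comm]

/-- PQ/GAP -/
theorem gap : S_GAP := by
  intro g K _ A B hA hB hdet hirr i j hij
  by_contra hcon
  push Not at hcon
  obtain ⟨M, hM⟩ : ∃ M : Mt g K, M = A⁻¹ * B := ⟨_, rfl⟩
  have hJinv : (Jm g K)⁻¹ = Jm g K := Matrix.inv_eq_right_inv J_sq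
  have hM' : M = (Jm g K * A)⁻¹ * (Jm g K * B) := by
    rw [hM, Matrix.mul_inv_rev, hJinv]
    calc A⁻¹ * B = A⁻¹ * (Jm g K * Jm g K) * B := by rw [J_sq, Matrix.mul_one]
      _ = _ := by simp only [Matrix.mul_assoc]
  obtain ⟨b, hb⟩ : ∃ b : Fin (2 * g + 1) → ℕ, b = fun a => if a ≤ j then 0 else 1 := ⟨_, rfl⟩
  have hlt : ∀ {a c : Fin (2 * g + 1)}, b c < b a → ¬ a ≤ j ∧ c ≤ j := by
    intro a c h
    rw [hb] at h
    by_cases h1 : a ≤ j
    · simp [h1] at h
    · by_cases h2 : c ≤ j
      · exact ⟨h1, h2⟩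
      · simp [h1, h2] at h
  have hrev : ∀ a : Fin (2 * g + 1), ¬ a ≤ j → Fin.rev a ≤ i := by
    intro a ha
    rw [Fin.le_def, Fin.val_rev]
    rw [Fin.le_def] at ha
    have := a.2
    omega
  have hbA : (Jm g K * A).BlockTriangular b := by
    intro a c h
    obtain ⟨h1, h2⟩ := hlt h
    rw [J_mul]
    exact (hcon _ (hrev a h1) c h2).1
  have hbB : (Jm g K * B).BlockTriangular b := by
    intro a c h
    obtain ⟨h1, h2⟩ := hlt h
    rw [J_mul]
    exact (hcon _ (hrev a h1) c h2).2
  have hu : IsUnit (Jm g K * A).det := by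
    rw [Matrix.det_mul]
    refine IsUnit.mul ?_ (isUnit_iff_ne_zero.mpr hdet)
    have h1 := congrArg Matrix.det (J_sq (g := g) (K := K))
    rw [Matrix.det_mul, Matrix.det_one] at h1
    exact IsUnit.of_mul_eq_one _ h1
  have := Matrix.invertibleOfIsUnitDet _ hu
  have hbM : M.BlockTriangular b := by
    rw [hM']
    exact (Matrix.blockTriangular_inv_of_blockTriangular hbA).mul hbB
  have h0 : ∀ a : Fin (2 * g + 1), ¬ (a ≤ j) → ∀ c : Fin (2 * g + 1), c ≤ j → M a c = 0 := by
    intro a ha c hc
    apply hbM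
    rw [hb]
    simp [ha, hc]
  have hdet := Matrix.twoBlockTriangular_det (charmatrix M) (fun a => a ≤ j) (by
    intro a ha c hc
    have hne : a ≠ c := by rintro rfl; exact ha hc
    rw [charmatrix_apply_ne _ _ _ hne, h0 a ha c hc]
    simp)
  have e1 : toSquareBlockProp (charmatrix M) (fun a => a ≤ j) =
      charmatrix (toSquareBlockProp M (fun a => a ≤ j)) := by
    ext1 a c
    simp [toSquareBlockProp_def, charmatrix_apply, Matrix.diagonal_apply, Subtype.ext_iff]
  have e2 : toSquareBlockProp (charmatrix M) (fun a => ¬ a ≤ j) =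
      charmatrix (toSquareBlockProp M (fun a => ¬ a ≤ j)) := by
    ext1 a c
    simp [toSquareBlockProp_def, charmatrix_apply, Matrix.diagonal_apply, Subtype.ext_iff]
  rw [e1, e2] at hdet
  have hchp : chp A B = (toSquareBlockProp M (fun a => a ≤ j)).charpoly *
      (toSquareBlockProp M (fun a => ¬ a ≤ j)).charpoly := by
    unfold chp
    rw [← hM]
    exact hdet
  rw [hchp] at hirr
  rcases hirr.isUnit_or_isUnit rfl with hu | hu
  · have h1 := (charpoly_monic _).eq_one_of_isUnit hu
    have h2 := congrArg natDegree h1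
    rw [charpoly_natDegree_eq_dim, natDegree_one, Fintype.card_eq_zero_iff] at h2
    exact h2.elim ⟨j, le_refl _⟩
  · have h1 := (charpoly_monic _).eq_one_of_isUnit hu
    have h2 := congrArg natDegree h1
    rw [charpoly_natDegree_eq_dim, natDegree_one, Fintype.card_eq_zero_iff] at h2
    refine h2.elim ⟨Fin.last (2 * g), ?_⟩
    rw [Fin.le_def, Fin.val_last]
    omega

/-! ### SQ -/

/-- the orthogonal of a subspace of dimension `g` -/
theorem orth_dim {g : ℕ} {L : Type} [Field L] [NumberField L] {f : ℤ[X]} {θ : L}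
    (h : IsGen g f θ) {α : L} (hα : α ≠ 0) (e : Fin g → L) (he : LinearIndependent ℚ e) :
    ∃ C : Submodule ℚ L, finrank ℚ C = g + 1 ∧ ∀ x, x ∈ C ↔ ∀ i, h.top (x * e i / α) = 0 := by
  obtain ⟨Λ, hΛ⟩ : ∃ Λ : L →ₗ[ℚ] L →ₗ[ℚ] ℚ, ∀ y x, Λ y x = h.top (x * y / α) :=
    ⟨LinearMap.mk₂ ℚ (fun y x => h.top (x * y / α))
      (fun y y' x => by rw [← map_add]; congr 1; ring)
      (fun c y x => by rw [mul_smul_comm, smul_div_assoc, map_smul])
      (fun y x x' => by rw [← map_add]; congr 1; ring)
      (fun c y x => by rw [smul_mul_assoc, smul_div_assoc, map_smul]), fun _ _ => rfl⟩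
  have hker : LinearMap.ker Λ = ⊥ := by
    rw [LinearMap.ker_eq_bot']
    intro y hy
    by_contra hy0
    have h1 : Λ y (θ ^ (2 * g) * α / y) = 0 := by rw [hy]; rfl
    rw [hΛ] at h1
    have h2 : θ ^ (2 * g) * α / y * y / α = h.basis (Fin.last (2 * g)) := by
      rw [h.basis_apply, Fin.val_last]
      field_simp
    rw [h2] at h1
    simp [IsGen.top] at h1
  have hli : LinearIndependent ℚ (fun i => Λ (e i)) := he.map' Λ hker
  let W : Submodule ℚ (Module.Dual ℚ L) := Submodule.span ℚ (Set.range fun i => Λ (e i))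
  have hW : finrank ℚ W = g := by
    have := finrank_span_eq_card (R := ℚ) hli
    simpa using this
  refine ⟨W.dualCoannihilator, ?_, ?_⟩
  · have h1 := Subspace.finrank_add_finrank_dualCoannihilator_eq W
    rw [hW, h.rank] at h1
    omega
  · intro x
    rw [Submodule.mem_dualCoannihilator]
    constructor
    · intro hx i
      rw [← hΛ]
      exact hx _ (Submodule.subset_span ⟨i, rfl⟩)
    · intro hx φ hφ
      have h1 : W ≤ LinearMap.ker (Module.Dual.eval ℚ L x) := by
        rw [Submodule.span_le]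
        rintro _ ⟨i, rfl⟩
        rw [SetLike.mem_coe, LinearMap.mem_ker, Module.Dual.eval_apply]
        simp only
        rw [hΛ]
        exact hx i
      exact h1 hφ

/-- PQ/SQ -/
theorem sq : S_SQ := by
  intro g L _ _ f θ hg h α e hα he hJ hT hN
  have hθ : θ ≠ 0 := by
    have := h.basis.ne_zero ⟨1, by omega⟩
    rw [h.basis_apply] at this
    simpa using this
  let U : Submodule ℚ L := Submodule.span ℚ (Set.range fun i : Fin g => e (Fin.castLE (by omega) i))
  have heli : LinearIndependent ℚ (fun i : Fin g => e (Fin.castLE (by omega) i)) :=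
    he.comp _ (Fin.castLE_injective (by omega))
  obtain ⟨C, hCd, hC⟩ := orth_dim h hα (fun i : Fin g => e (Fin.castLE (by omega) i)) heli
  have hUd : finrank ℚ U = g := by
    have := finrank_span_eq_card (R := ℚ) heli
    simpa using this
  have hUC : U ≤ C := by
    rw [Submodule.span_le]
    rintro _ ⟨i, rfl⟩
    rw [SetLike.mem_coe, hC]
    intro j
    exact hJ _ _ (by simp) (by simp)
  let T : L →ₗ[ℚ] L := LinearMap.mulLeft ℚ θ
  have hTU : U.map T ≤ C := by
    rw [Submodule.map_le_iff_le_comap, Submodule.span_le]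
    rintro _ ⟨i, rfl⟩
    simp only [SetLike.mem_coe, Submodule.mem_comap]
    change θ * e (Fin.castLE _ i) ∈ C
    rw [hC]
    intro j
    rw [mul_assoc]
    exact hT _ _ (by simp) (by simp)
  have hTi : Function.Injective T := by
    intro x y hxy
    exact mul_left_cancel₀ hθ hxy
  have hdim := seqU_dim' T hTi U C hUC hTU (by omega) (g - 1)
  have hpos : 0 < finrank ℚ (seqU T U (g - 1)) := by omega
  obtain ⟨v, hv, hv0⟩ : ∃ v ∈ seqU T U (g - 1), v ≠ 0 := by
    rw [finrank_pos_iff_exists_ne_zero] at hpos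
    obtain ⟨⟨v, hv⟩, hv0⟩ := hpos
    exact ⟨v, hv, fun h => hv0 (by simpa using h)⟩
  have hTp : ∀ i x, (T ^ i) x = θ ^ i * x := by
    intro i
    induction i with
    | zero => intro x; simp
    | succ i ih => intro x; rw [pow_succ, Module.End.mul_apply, ih]; simp [T]; ring
  have hvU : ∀ i ≤ g - 1, θ ^ i * v ∈ U := by
    intro i hi
    rw [← hTp]
    exact seqU_mem T U (g - 1) v hv i hi
  -- orthogonality
  have hbil : ∀ z : L, (∀ i j : Fin (2 * g + 1), (i : ℕ) < g → (j : ℕ) < g →
      h.top (z * (e i * e j)) = 0) → ∀ x ∈ U, ∀ y ∈ U, h.top (z * (x * y)) = 0 := by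
    intro z hz x hx y hy
    have h1 : ∀ j : Fin (2 * g + 1), (j : ℕ) < g → ∀ x ∈ U, h.top (z * (x * e j)) = 0 := by
      intro j hj x hx
      have : U ≤ LinearMap.ker (h.top ∘ₗ (LinearMap.mulLeft ℚ z) ∘ₗ (LinearMap.mulRight ℚ (e j))) := by
        rw [Submodule.span_le]
        rintro _ ⟨i, rfl⟩
        exact hz _ _ (by simp) hj
      exact this hx
    have : U ≤ LinearMap.ker (h.top ∘ₗ (LinearMap.mulLeft ℚ z) ∘ₗ (LinearMap.mulLeft ℚ x)) := by
      rw [Submodule.span_le]
      rintro _ ⟨i, rfl⟩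
      exact h1 _ (by simp) x hx
    exact this hy
  have hb0 := hbil (1 / α) (by
    intro i j hi hj
    rw [show 1 / α * (e i * e j) = e i * e j / α by ring]
    exact hJ i j hi hj)
  have hb1 := hbil (θ / α) (by
    intro i j hi hj
    rw [show θ / α * (e i * e j) = θ * (e i * e j) / α by ring]
    exact hT i j hi hj)
  set c : L := v ^ 2 / α with hc
  have htop : ∀ m : ℕ, m ≤ 2 * g - 1 → h.top (θ ^ m * c) = 0 := by
    intro m hm
    rcases Nat.lt_or_ge (2 * (g - 1)) m with hlt | hge
    · obtain rfl : m = 2 * (g - 1) + 1 := by omega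
      have := hb1 _ (hvU (g - 1) le_rfl) _ (hvU (g - 1) le_rfl)
      rw [← this]
      congr 1
      rw [hc]; ring
    · obtain ⟨a, b, ha, hb, rfl⟩ : ∃ a b, a ≤ g - 1 ∧ b ≤ g - 1 ∧ m = a + b :=
        ⟨min m (g - 1), m - min m (g - 1), by omega, by omega, by omega⟩
      have := hb0 _ (hvU a ha) _ (hvU b hb)
      rw [← this]
      congr 1
      rw [hc]; ring
  have hcoef : ∀ n : ℕ, ∀ i : Fin (2 * g + 1), (i : ℕ) + n = 2 * g → 1 ≤ (i : ℕ) →
      h.basis.repr c i = 0 := by
    intro n
    induction n using Nat.strong_induction_on with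
    | _ n ih =>
      intro i hi hi1
      have h1 := htop n (by omega)
      rw [← h.basis.sum_repr c, Finset.mul_sum, map_sum] at h1
      have h2 : ∀ j : Fin (2 * g + 1), h.top (θ ^ n * (h.basis.repr c j • h.basis j)) =
          if j = i then h.basis.repr c i else 0 := by
        intro j
        rw [h.basis_apply, mul_smul_comm, map_smul, smul_eq_mul, ← pow_add]
        rcases lt_trichotomy (j : ℕ) (i : ℕ) with hl | hl | hl
        · rw [if_neg (fun hh => by rw [hh] at hl; omega)]
          have h3 : θ ^ (n + (j : ℕ)) = h.basis ⟨n + j, by omega⟩ := by rw [h.basis_apply]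
          rw [h3]
          have : h.top (h.basis ⟨n + j, by omega⟩) = 0 := by
            simp only [IsGen.top, Basis.coord_apply, Basis.repr_self]
            rw [Finsupp.single_apply, if_neg]
            intro hh
            have := congrArg Fin.val hh
            simp at this
            omega
          rw [this, mul_zero]
        · obtain rfl : j = i := Fin.ext hl
          rw [if_pos rfl]
          have h3 : θ ^ (n + (j : ℕ)) = h.basis (Fin.last (2 * g)) := by
            rw [h.basis_apply, Fin.val_last]; congr 1; omega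
          rw [h3]
          simp [IsGen.top]
        · have := ih (2 * g - j) (by omega) j (by have := j.2; omega) (by omega)
          rw [this, zero_mul, if_neg (fun hh => by rw [hh] at hl; omega)]
      rw [Finset.sum_congr rfl fun j _ => h2 j] at h1
      simpa using h1
  have hcK : c = algebraMap ℚ L (h.basis.repr c 0) := by
    conv_lhs => rw [← h.basis.sum_repr c]
    rw [Finset.sum_eq_single (0 : Fin (2 * g + 1))]
    · rw [h.basis_apply, Algebra.smul_def]; simp
    · intro j _ hj
      rw [hcoef (2 * g - j) j (by have := j.2; omega) (by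
        have : (j : ℕ) ≠ 0 := fun hh => hj (Fin.ext hh)
        omega), zero_smul]
    · simp
  set γ : ℚ := h.basis.repr c 0 with hγ
  have hc0 : c ≠ 0 := by
    rw [hc]
    exact div_ne_zero (pow_ne_zero 2 hv0) hα
  have hγ0 : γ ≠ 0 := by
    intro hh
    rw [hh, map_zero] at hcK
    exact hc0 hcK
  have hvα : v ^ 2 = algebraMap ℚ L γ * α := by
    rw [← hcK, hc]; field_simp
  have hNv := congrArg (Algebra.norm ℚ) hvα
  rw [map_mul, map_pow, Algebra.norm_algebraMap, h.rank] at hNv
  obtain ⟨n, hn⟩ := hN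
  have hn0 : n ≠ 0 := by
    rintro rfl
    have : Algebra.norm ℚ α = 0 := by rw [hn]; ring
    rw [Algebra.norm_eq_zero_iff] at this
    exact hα this
  -- `γ` is a square
  have hγs : IsSquare γ := by
    refine ⟨Algebra.norm ℚ v / (n * γ ^ g), ?_⟩
    field_simp
    rw [hNv, hn]
    ring
  obtain ⟨s, hs⟩ := hγs
  have hs0 : s ≠ 0 := by rintro rfl; exact hγ0 (by rw [hs]; ring)
  refine ⟨v / algebraMap ℚ L s, ?_⟩
  have hs1 : algebraMap ℚ L s ≠ 0 := by
    intro hh
    exact hs0 ((algebraMap ℚ L).injective (by rw [hh, map_zero]))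
  field_simp
  rw [hvα, hs, map_mul]
  ring

end Pool.Agent.N530.PQ
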