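import Pool.Agent.N783.PQ.Def
import Pool.Agent.N50.PJ.Orb

/-!
# PQ/ORB: orbits of the unipotent group on pairs (written by helper530)

The freeness uses `comm_zero` of `Pool.Agent.N50.PJ.Orb` (helper50).
-/

set_option autoImplicit false
set_option linter.unusedSectionVars false

open Polynomial Matrix
open scoped Classical

namespace Pool.Agent.N530.PQ

open Pool.Agent.N783.PQ hiding S_ORB
open Pool.Agent.N352.PJ (Mt Typ)

/-! ### The action -/

section act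

variable {g : ℕ} {R : Type} [CommRing R] {U A B T : Mt g R}

theorem op_act (hU : IsUnit U.det) :
    (Uᵀ * A * U)⁻¹ * (Uᵀ * B * U) = U⁻¹ * (A⁻¹ * B) * U := by
  have hUt : IsUnit Uᵀ.det := by rwa [Matrix.det_transpose]
  rw [Matrix.mul_inv_rev, Matrix.mul_inv_rev]
  calc U⁻¹ * (A⁻¹ * (Uᵀ)⁻¹) * (Uᵀ * B * U) = U⁻¹ * (A⁻¹ * ((Uᵀ)⁻¹ * Uᵀ) * B) * U := by
        simp only [Matrix.mul_assoc]
    _ = _ := by rw [Matrix.nonsing_inv_mul _ hUt, Matrix.mul_one]

theorem chp_act (hU : IsUnit U.det) : chp (Uᵀ * A * U) (Uᵀ * B * U) = chp A B := by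
  unfold chp
  rw [op_act hU, Matrix.charpoly_mul_comm, ← Matrix.mul_assoc, Matrix.mul_nonsing_inv _ hU,
    Matrix.one_mul]

theorem tr_act (hU : IsUnit U.det) :
    ((Uᵀ * A * U)⁻¹ * (Uᵀ * B * U)).trace = (A⁻¹ * B).trace := by
  rw [op_act hU, Matrix.trace_mul_comm, ← Matrix.mul_assoc, Matrix.mul_nonsing_inv _ hU,
    Matrix.one_mul]

theorem symm_act (hA : A.IsSymm) : (Uᵀ * A * U).IsSymm := by
  unfold Matrix.IsSymm at hA ⊢
  rw [Matrix.transpose_mul, Matrix.transpose_mul, Matrix.transpose_transpose, hA,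
    Matrix.mul_assoc]

theorem pow_act (hU : IsUnit U.det) (m : ℕ) : (U⁻¹ * T * U) ^ m = U⁻¹ * T ^ m * U := by
  induction m with
  | zero => rw [pow_zero, pow_zero, Matrix.mul_one, Matrix.nonsing_inv_mul _ hU]
  | succ m ih =>
    rw [pow_succ, ih, pow_succ]
    calc U⁻¹ * T ^ m * U * (U⁻¹ * T * U) = U⁻¹ * T ^ m * (U * U⁻¹) * T * U := by
          simp only [Matrix.mul_assoc]
      _ = _ := by
        rw [Matrix.mul_nonsing_inv _ hU, Matrix.mul_one]
        simp only [Matrix.mul_assoc]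

theorem form_act (hU : IsUnit U.det) (m : ℕ) (ξ : Fin (2 * g + 1) → R) :
    form (Uᵀ * A * U) (Uᵀ * B * U) m (U⁻¹ *ᵥ ξ) = form A B m ξ := by
  unfold form
  rw [op_act hU, pow_act hU, Matrix.mulVec_mulVec]
  have e : Uᵀ * A * U * (U⁻¹ * (A⁻¹ * B) ^ m * U) * U⁻¹ = Uᵀ * (A * (A⁻¹ * B) ^ m) := by
    calc Uᵀ * A * U * (U⁻¹ * (A⁻¹ * B) ^ m * U) * U⁻¹
        = Uᵀ * A * (U * U⁻¹) * (A⁻¹ * B) ^ m * (U * U⁻¹) := by simp only [Matrix.mul_assoc]
      _ = _ := by
        rw [Matrix.mul_nonsing_inv _ hU, Matrix.mul_one, Matrix.mul_one]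
        simp only [Matrix.mul_assoc]
  rw [e, ← Matrix.mulVec_mulVec, Matrix.dotProduct_mulVec, Matrix.vecMul_transpose,
    Matrix.mulVec_mulVec, Matrix.mul_nonsing_inv _ hU, Matrix.one_mulVec]

theorem dist_act {U A B : Mt g ℤ} (hU : IsUnit U.det) {q : ℤ} (h : DistMod q A B) :
    DistMod q (Uᵀ * A * U) (Uᵀ * B * U) := by
  obtain ⟨ξ, s, hs, h⟩ := h
  refine ⟨U⁻¹ *ᵥ ξ, s, hs, fun m hm => ?_⟩
  rw [form_act hU]
  exact h m hm

end act

/-! ### Unipotent matrices -/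

section uni

variable {g : ℕ}

/-- upper triangular unipotent integral matrices with bounded entries -/
structure Uni (w : Fin (2 * g + 1) → ℤ) (U : Mt g ℤ) : Prop where
  low : ∀ i j, j < i → U i j = 0
  dia : ∀ i, U i i = 1
  bd : ∀ i j, i < j → ((|U i j| : ℤ) : ℝ) ≤ (2 : ℝ) ^ (w j - w i)

variable {w : Fin (2 * g + 1) → ℤ} {U U' A B : Mt g ℤ}

theorem Uni.det (h : Uni w U) : U.det = 1 := by
  rw [Matrix.det_of_isUpperTriangular (fun i j hij => h.low i j hij)]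
  simp [h.dia]

theorem Uni.unit (h : Uni w U) : IsUnit U.det := by rw [h.det]; exact isUnit_one

theorem Uni.bd' (h : Uni w U) (i j : Fin (2 * g + 1)) :
    ((|U i j| : ℤ) : ℝ) ≤ (2 : ℝ) ^ (w j - w i) := by
  rcases lt_trichotomy i j with hij | hij | hij
  · exact h.bd i j hij
  · rw [hij, h.dia, sub_self, zpow_zero]
    simp
  · rw [h.low i j hij, abs_zero, Int.cast_zero]
    positivity

/-- the bound for the transformed matrix -/
theorem Uni.box (h : Uni w U) {c : ℤ} (hA : ∀ i j, ((|A i j| : ℤ) : ℝ) ≤ (2 : ℝ) ^ (c + w i + w j))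
    (i j : Fin (2 * g + 1)) : ((|(Uᵀ * A * U) i j| : ℤ) : ℝ) ≤
      (2 * g + 1 : ℕ) ^ 2 * (2 : ℝ) ^ (c + w i + w j) := by
  have e : (Uᵀ * A * U) i j = ∑ l, ∑ k, U k i * A k l * U l j := by
    rw [Matrix.mul_apply]
    refine Finset.sum_congr rfl fun l _ => ?_
    rw [Matrix.mul_apply, Finset.sum_mul]
    refine Finset.sum_congr rfl fun k _ => ?_
    rw [Matrix.transpose_apply]
  have h1 : ∀ l k : Fin (2 * g + 1), ((|U k i * A k l * U l j| : ℤ) : ℝ) ≤
      (2 : ℝ) ^ (c + w i + w j) := by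
    intro l k
    rw [abs_mul, abs_mul, Int.cast_mul, Int.cast_mul]
    have h2 := h.bd' k i
    have h3 := hA k l
    have h4 := h.bd' l j
    have h5 : (2 : ℝ) ^ (c + w i + w j) =
        (2 : ℝ) ^ (w i - w k) * (2 : ℝ) ^ (c + w k + w l) * (2 : ℝ) ^ (w j - w l) := by
      rw [← zpow_add₀ (by norm_num : (2 : ℝ) ≠ 0), ← zpow_add₀ (by norm_num : (2 : ℝ) ≠ 0)]
      congr 1
      ring
    rw [h5]
    have p1 : (0 : ℝ) ≤ ((|U k i| : ℤ) : ℝ) := by exact_mod_cast abs_nonneg _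
    have p2 : (0 : ℝ) ≤ ((|A k l| : ℤ) : ℝ) := by exact_mod_cast abs_nonneg _
    have p3 : (0 : ℝ) ≤ ((|U l j| : ℤ) : ℝ) := by exact_mod_cast abs_nonneg _
    exact mul_le_mul (mul_le_mul h2 h3 p2 (by positivity)) h4 p3 (by positivity)
  rw [e]
  have h2 : |∑ l, ∑ k, U k i * A k l * U l j| ≤ ∑ l, ∑ k, |U k i * A k l * U l j| :=
    (Finset.abs_sum_le_sum_abs _ _).trans
      (Finset.sum_le_sum fun l _ => Finset.abs_sum_le_sum_abs _ _)
  have h3 : ((|∑ l, ∑ k, U k i * A k l * U l j| : ℤ) : ℝ) ≤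
      ∑ l, ∑ k, ((|U k i * A k l * U l j| : ℤ) : ℝ) := by exact_mod_cast h2
  refine h3.trans ((Finset.sum_le_sum fun l _ => Finset.sum_le_sum fun k _ => h1 l k).trans ?_)
  rw [Finset.sum_const, Finset.sum_const, Finset.card_univ, Fintype.card_fin, nsmul_eq_mul,
    nsmul_eq_mul, sq, mul_assoc]

/-- the first basis vector -/
theorem Uni.e0 (h : Uni w U) : U *ᵥ Pi.single 0 1 = Pi.single 0 1 := by
  rw [Matrix.mulVec_single_one]
  funext i
  by_cases hi : i = 0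
  · rw [hi, Pi.single_eq_same]
    exact h.dia 0
  · rw [Pi.single_eq_of_ne hi]
    exact h.low i 0 (Fin.pos_of_ne_zero hi)

theorem free (hirr : Irreducible ((chp A B).map (Int.castRingHom ℚ)))
    (h : Uni w U) (h' : Uni w U') (eA : Uᵀ * A * U = U'ᵀ * A * U')
    (eB : Uᵀ * B * U = U'ᵀ * B * U') : U = U' := by
  obtain ⟨T, hT⟩ : ∃ T : Mt g ℤ, T = A⁻¹ * B := ⟨_, rfl⟩
  obtain ⟨V, hV⟩ : ∃ V : Mt g ℤ, V = U' * U⁻¹ := ⟨_, rfl⟩
  have hU := h.unit
  have hU' := h'.unit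
  have e1 : U⁻¹ * T * U = U'⁻¹ * T * U' := by
    rw [hT, ← op_act hU, ← op_act hU', eA, eB]
  have hVT : V * T = T * V := by
    have h2 : U' * (U⁻¹ * T * U) * U⁻¹ = U' * (U'⁻¹ * T * U') * U⁻¹ := by rw [e1]
    have h3 : U' * (U⁻¹ * T * U) * U⁻¹ = V * T := by
      rw [hV]
      calc U' * (U⁻¹ * T * U) * U⁻¹ = U' * U⁻¹ * T * (U * U⁻¹) := by
            simp only [Matrix.mul_assoc]
        _ = _ := by rw [Matrix.mul_nonsing_inv _ hU, Matrix.mul_one]
    have h4 : U' * (U'⁻¹ * T * U') * U⁻¹ = T * V := by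
      rw [hV]
      calc U' * (U'⁻¹ * T * U') * U⁻¹ = (U' * U'⁻¹) * T * (U' * U⁻¹) := by
            simp only [Matrix.mul_assoc]
        _ = _ := by rw [Matrix.mul_nonsing_inv _ hU', Matrix.one_mul]
    rw [← h3, h2, h4]
  have hVe : V *ᵥ Pi.single 0 1 = Pi.single 0 1 := by
    rw [hV, ← Matrix.mulVec_mulVec]
    have h2 : U⁻¹ *ᵥ Pi.single 0 1 = Pi.single 0 1 := by
      conv_lhs => rw [← h.e0]
      rw [Matrix.mulVec_mulVec, Matrix.nonsing_inv_mul _ hU, Matrix.one_mulVec]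
    rw [h2, h'.e0]
  -- pass to the rationals
  obtain ⟨ι, hι⟩ : ∃ ι : ℤ →+* ℚ, ι = Int.castRingHom ℚ := ⟨_, rfl⟩
  have hιi : Function.Injective ι := by
    rw [hι]
    exact Int.cast_injective
  have hirr' : Irreducible (T.map ι).charpoly := by
    rw [Matrix.charpoly_map, hT, hι]
    exact hirr
  have hM0 : (V - 1).map ι = 0 := by
    refine Pool.Agent.N50.PJ.comm_zero (T.map ι) ((V - 1).map ι) hirr' ?_
      (x := fun i => ι ((Pi.single 0 1 : Fin (2 * g + 1) → ℤ) i)) ?_ ?_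
    · rw [← Matrix.map_mul, ← Matrix.map_mul]
      congr 1
      rw [Matrix.sub_mul, Matrix.mul_sub, hVT, Matrix.one_mul, Matrix.mul_one]
    · intro h0
      have h2 := congrFun h0 0
      simp only [Pi.single_eq_same, map_one, Pi.zero_apply] at h2
      exact one_ne_zero h2
    · have h3 : (V - 1) *ᵥ (Pi.single 0 1 : Fin (2 * g + 1) → ℤ) = 0 := by
        rw [Matrix.sub_mulVec, Matrix.one_mulVec, hVe, sub_self]
      funext i
      have h4 := congrFun h3 i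
      have h5 := congrArg ι h4
      rw [Pi.zero_apply, map_zero] at h5
      rw [Pi.zero_apply, ← h5]
      simp only [Matrix.mulVec, dotProduct, Matrix.map_apply, map_sum, map_mul]
  have hV1 : V = 1 := by
    rw [← sub_eq_zero]
    refine Matrix.ext fun i j => ?_
    apply hιi
    have := congrFun (congrFun hM0 i) j
    rw [Matrix.map_apply] at this
    rw [this, Matrix.zero_apply, Matrix.zero_apply, map_zero]
  calc U = V * U := by rw [hV1, Matrix.one_mul]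
    _ = U' * (U⁻¹ * U) := by rw [hV, Matrix.mul_assoc]
    _ = U' := by rw [Matrix.nonsing_inv_mul _ hU, Matrix.mul_one]

end uni

/-! ### The count -/

section count

variable {g : ℕ}

/-- the free entries -/
abbrev Ix (g : ℕ) : Type := {p : Fin (2 * g + 1) × Fin (2 * g + 1) //
  p ∈ (Finset.univ : Finset (Fin (2 * g + 1) × Fin (2 * g + 1))).filter (fun p => p.1 < p.2)}

/-- the parameters -/
abbrev Par (g : ℕ) (w : Fin (2 * g + 1) → ℤ) : Type :=
  ∀ p : Ix g, Fin (2 ^ (w p.1.2 - w p.1.1).toNat)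

/-- the matrix -/
noncomputable def mat {w : Fin (2 * g + 1) → ℤ} (c : Par g w) : Mt g ℤ :=
  Matrix.of fun i j => if h : (i, j) ∈
    (Finset.univ : Finset (Fin (2 * g + 1) × Fin (2 * g + 1))).filter (fun p => p.1 < p.2) then
      ((c ⟨(i, j), h⟩ : ℕ) : ℤ) else if i = j then 1 else 0

theorem mem_ix {i j : Fin (2 * g + 1)} (h : i < j) : (i, j) ∈
    (Finset.univ : Finset (Fin (2 * g + 1) × Fin (2 * g + 1))).filter (fun p => p.1 < p.2) :=
  Finset.mem_filter.mpr ⟨Finset.mem_univ _, h⟩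

theorem mat_lt {w : Fin (2 * g + 1) → ℤ} (c : Par g w) {i j : Fin (2 * g + 1)} (h : i < j) :
    mat c i j = ((c ⟨(i, j), mem_ix h⟩ : ℕ) : ℤ) := by
  unfold mat
  rw [Matrix.of_apply, dif_pos (mem_ix h)]

theorem mat_ge {w : Fin (2 * g + 1) → ℤ} (c : Par g w) {i j : Fin (2 * g + 1)} (h : j ≤ i) :
    mat c i j = if i = j then 1 else 0 := by
  unfold mat
  rw [Matrix.of_apply, dif_neg]
  intro h'
  rw [Finset.mem_filter] at h'
  exact absurd h'.2 (not_lt.mpr h)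

theorem mat_uni {w : Fin (2 * g + 1) → ℤ} (hw : Typ g w) (c : Par g w) : Uni w (mat c) where
  low := fun i j hij => by rw [mat_ge c hij.le, if_neg hij.ne']
  dia := fun i => by rw [mat_ge c le_rfl, if_pos rfl]
  bd := fun i j hij => by
    rw [mat_lt c hij, Nat.abs_cast, Int.cast_natCast]
    have h1 := (c ⟨(i, j), mem_ix hij⟩).2
    have h2 : (((c ⟨(i, j), mem_ix hij⟩ : ℕ)) : ℝ) ≤ (2 : ℝ) ^ (w j - w i).toNat := by
      exact_mod_cast h1.le
    refine h2.trans (le_of_eq ?_)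
    rw [← zpow_natCast, Int.toNat_of_nonneg (sub_nonneg.mpr (hw.mono hij.le))]

theorem mat_inj {w : Fin (2 * g + 1) → ℤ} {c c' : Par g w} (h : mat c = mat c') : c = c' := by
  funext p
  obtain ⟨⟨i, j⟩, hp⟩ := p
  have hij : i < j := (Finset.mem_filter.mp hp).2
  have h1 : mat c i j = mat c' i j := by rw [h]
  rw [mat_lt c hij, mat_lt c' hij] at h1
  apply Fin.ext
  exact_mod_cast h1

theorem card_par (w : Fin (2 * g + 1) → ℤ) : Nat.card (Par g w) = 2 ^ eU g w := by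
  rw [Nat.card_pi, Finset.prod_congr rfl fun p _ => Nat.card_fin _, Finset.prod_pow_eq_pow_sum]
  congr 1
  unfold eU
  exact Finset.sum_coe_sort ((Finset.univ : Finset (Fin (2 * g + 1) × Fin (2 * g + 1))).filter
    (fun p => p.1 < p.2)) (fun p => (w p.2 - w p.1).toNat)

theorem X_act {κ : ℕ} (hκ : (2 * g + 1) ^ 2 ≤ 2 ^ κ) {c : ℕ} {S : Finset ℕ} {h : ℕ → ℤ[X]} {N : ℕ}
    {w : Fin (2 * g + 1) → ℤ} {A B U : Mt g ℤ} (hX : Xset g N c w S h A B) (hU : Uni w U) :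
    Xset g (N + κ) (c + κ) w S h (Uᵀ * A * U) (Uᵀ * B * U) where
  box := {
    sA := symm_act hX.box.sA
    sB := symm_act hX.box.sB
    det := by
      rw [Matrix.det_mul, Matrix.det_mul, Matrix.det_transpose, hU.det, one_mul, mul_one]
      exact hX.box.det
    tr := by rw [tr_act hU.unit]; exact hX.box.tr
    bA := fun i j => by
      refine (hU.box hX.box.bA i j).trans ?_
      have h1 : (((2 * g + 1 : ℕ) : ℝ)) ^ 2 ≤ (2 : ℝ) ^ (κ : ℤ) := by
        rw [zpow_natCast]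
        exact_mod_cast hκ
      have h2 : (2 : ℝ) ^ (((c + κ : ℕ) : ℤ) + w i + w j) =
          (2 : ℝ) ^ (κ : ℤ) * (2 : ℝ) ^ ((c : ℤ) + w i + w j) := by
        rw [← zpow_add₀ (by norm_num : (2 : ℝ) ≠ 0)]
        congr 1
        push_cast
        ring
      rw [h2]
      exact mul_le_mul_of_nonneg_right h1 (by positivity)
    bB := fun i j => by
      refine (hU.box hX.box.bB i j).trans ?_
      have h1 : (((2 * g + 1 : ℕ) : ℝ)) ^ 2 ≤ (2 : ℝ) ^ (2 * (κ : ℤ)) := by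
        have h3 : (((2 * g + 1 : ℕ) : ℝ)) ^ 2 ≤ (2 : ℝ) ^ (κ : ℤ) := by
          rw [zpow_natCast]
          exact_mod_cast hκ
        refine h3.trans (zpow_le_zpow_right₀ (by norm_num) ?_)
        omega
      have h2 : (2 : ℝ) ^ (2 * ((N + κ : ℕ) : ℤ) + w i + w j) =
          (2 : ℝ) ^ (2 * (κ : ℤ)) * (2 : ℝ) ^ (2 * (N : ℤ) + w i + w j) := by
        rw [← zpow_add₀ (by norm_num : (2 : ℝ) ≠ 0)]
        congr 1
        push_cast
        ring
      rw [h2]
      exact mul_le_mul_of_nonneg_right h1 (by positivity) }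
  con := fun q hq => by rw [chp_act hU.unit]; exact hX.con q hq
  dist := fun q hq => dist_act hU.unit (hX.dist q hq)

end count

/-- PQ/ORB -/
theorem orb : Pool.Agent.N783.PQ.S_ORB := by
  intro g
  refine ⟨2 * (2 * g + 1), ?_⟩
  intro c S h N w hw hfin
  have hκ : (2 * g + 1) ^ 2 ≤ 2 ^ (2 * (2 * g + 1)) := by
    rw [mul_comm 2 (2 * g + 1), pow_mul]
    exact Nat.pow_le_pow_left (Nat.lt_two_pow_self).le 2
  obtain ⟨κ, hκe⟩ : ∃ κ, κ = 2 * (2 * g + 1) := ⟨_, rfl⟩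
  rw [← hκe] at hκ hfin ⊢
  have hfin' : Finite {p : Mt g ℤ × Mt g ℤ | Xset g (N + κ) (c + κ) w S h p.1 p.2} :=
    hfin.to_subtype
  rw [← card_par w, ← Nat.card_coe_set_eq, ← Nat.card_prod, ← Nat.card_coe_set_eq]
  have hch : ∀ f : {f : ℤ[X] | Irreducible (f.map (Int.castRingHom ℚ)) ∧
      ∃ A B : Mt g ℤ, Xset g N c w S h A B ∧ chp A B = f},
      ∃ A B : Mt g ℤ, Xset g N c w S h A B ∧ chp A B = f.1 := fun f => f.2.2
  choose A B hB1 hB2 using hch
  refine Nat.card_le_card_of_injective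
    (fun z => (⟨((mat z.2)ᵀ * A z.1 * mat z.2, (mat z.2)ᵀ * B z.1 * mat z.2),
      X_act hκ (hB1 z.1) (mat_uni hw z.2)⟩ :
      {p : Mt g ℤ × Mt g ℤ | Xset g (N + κ) (c + κ) w S h p.1 p.2})) ?_
  rintro ⟨f, u⟩ ⟨f', u'⟩ he
  have h0 : ((mat u)ᵀ * A f * mat u, (mat u)ᵀ * B f * mat u) =
      ((mat u')ᵀ * A f' * mat u', (mat u')ᵀ * B f' * mat u') := congrArg Subtype.val he
  have h4 : (mat u)ᵀ * A f * mat u = (mat u')ᵀ * A f' * mat u' := congrArg Prod.fst h0
  have h5 : (mat u)ᵀ * B f * mat u = (mat u')ᵀ * B f' * mat u' := congrArg Prod.snd h0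
  have h6 : f = f' := by
    apply Subtype.ext
    rw [← hB2 f, ← hB2 f', ← chp_act (A := A f) (B := B f) (mat_uni hw u).unit,
      ← chp_act (A := A f') (B := B f') (mat_uni hw u').unit, h4, h5]
  subst h6
  have h7 := free (A := A f) (B := B f) (by rw [hB2 f]; exact f.2.1) (mat_uni hw u)
    (mat_uni hw u') h4 h5
  rw [mat_inj h7]

end Pool.Agent.N530.PQ
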